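import Mathlib

/-!
MP_9999b5_co (Manickam-Miklos-Singhi): the scalar part of the proof. `t = T/k`, `τ = t/(2+t) = T/m`, `u = t/(1+t) = T/(k+T)`,
`q = P(both sums ≤ 0)`, `w = P(K heavy)`. Hypotheses: (SP0) = the conclusion of `Stmt_RBZ` and (RF0) = the R-flow with `r` dropped,
`f` a lower bound of the fraction of the light `T`-subsets of `k+T` elements.
-/

set_option autoImplicit false

namespace Pool.Agent.Work.MP_9999b5_fs

/-- (SP0) in the variable `t` -/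
theorem sp_t (t w q : ℝ) (ht : 0 < t)
    (h : q ^ 2 * (1 - (t / (2 + t)) ^ 2) ≤ w * (q ^ 2 - (t / (2 + t)) * (1 + t / (2 + t)) * q + t / (2 + t))) :
    4 * (1 + t) * q ^ 2 ≤ w * ((2 + t) ^ 2 * q ^ 2 - 2 * t * (1 + t) * q + t * (2 + t)) := by
  have h2 : (0 : ℝ) < 2 + t := by linarith
  have h3 := mul_le_mul_of_nonneg_right h (le_of_lt (pow_pos h2 2))
  have e1 : q ^ 2 * (1 - (t / (2 + t)) ^ 2) * (2 + t) ^ 2 = 4 * (1 + t) * q ^ 2 := by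
    field_simp
    ring
  have e2 : w * (q ^ 2 - (t / (2 + t)) * (1 + t / (2 + t)) * q + t / (2 + t)) * (2 + t) ^ 2 =
      w * ((2 + t) ^ 2 * q ^ 2 - 2 * t * (1 + t) * q + t * (2 + t)) := by
    field_simp
    ring
  rw [e1, e2] at h3
  exact h3

/-- (RF0) in the variable `t` -/
theorem rf_t (t w q f : ℝ) (ht : 0 < t)
    (h : f * (1 + q) ≤ (1 - w) + t / (1 + t) * (w - q)) :
    w ≤ (1 + t) * (1 - f) - q * (t + f * (1 + t)) := by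
  have h2 : (0 : ℝ) < 1 + t := by linarith
  have h3 := mul_le_mul_of_nonneg_right h (le_of_lt h2)
  have e2 : ((1 - w) + t / (1 + t) * (w - q)) * (1 + t) = (1 - w) * (1 + t) + t * (w - q) := by
    field_simp
  rw [e2] at h3
  nlinarith

/-- general comparison at `q = a` -/
theorem cmp (t w q f a : ℝ) (ht : 0 < t) (ht1 : t ≤ 1) (ha : 0 < a) (hq : a < q) (hq1 : q ≤ 1) (hf : 0 ≤ f)
    (hw : 0 ≤ w)
    (h1 : 4 * (1 + t) * q ^ 2 ≤ w * ((2 + t) ^ 2 * q ^ 2 - 2 * t * (1 + t) * q + t * (2 + t)))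
    (h2 : w ≤ (1 + t) * (1 - f) - q * (t + f * (1 + t))) :
    4 * (1 + t) * a ^ 2 ≤ ((1 + t) * (1 - f) - a * (t + f * (1 + t))) *
      ((2 + t) ^ 2 * a ^ 2 - 2 * t * (1 + t) * a + t * (2 + t)) := by
  have hq0 : 0 < q := lt_trans ha hq
  have ha1 : a ≤ 1 := by linarith
  have hk : ((2 + t) ^ 2 * q ^ 2 - 2 * t * (1 + t) * q + t * (2 + t)) * a ^ 2 ≤
      ((2 + t) ^ 2 * a ^ 2 - 2 * t * (1 + t) * a + t * (2 + t)) * q ^ 2 := by
    have e : ((2 + t) ^ 2 * a ^ 2 - 2 * t * (1 + t) * a + t * (2 + t)) * q ^ 2 -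
        ((2 + t) ^ 2 * q ^ 2 - 2 * t * (1 + t) * q + t * (2 + t)) * a ^ 2 =
        (q - a) * t * ((2 + t) * (a + q) - 2 * (1 + t) * a * q) := by ring
    have h3 : 0 ≤ (2 + t) * (a + q) - 2 * (1 + t) * a * q := by
      have h4 : 2 * (a * q) ≤ a + q := by nlinarith
      nlinarith
    have h5 : 0 ≤ (q - a) * t * ((2 + t) * (a + q) - 2 * (1 + t) * a * q) :=
      mul_nonneg (mul_nonneg (by linarith) ht.le) h3
    linarith
  have h3 : 4 * (1 + t) * a ^ 2 * q ^ 2 ≤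
      w * ((2 + t) ^ 2 * a ^ 2 - 2 * t * (1 + t) * a + t * (2 + t)) * q ^ 2 := by
    have h4 := mul_le_mul_of_nonneg_right h1 (sq_nonneg a)
    have h5 := mul_le_mul_of_nonneg_left hk hw
    nlinarith
  have h6 : 4 * (1 + t) * a ^ 2 ≤ w * ((2 + t) ^ 2 * a ^ 2 - 2 * t * (1 + t) * a + t * (2 + t)) :=
    le_of_mul_le_mul_right h3 (pow_pos hq0 2)
  have hD : 0 ≤ (2 + t) ^ 2 * a ^ 2 - 2 * t * (1 + t) * a + t * (2 + t) := by
    by_contra hneg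
    push Not at hneg
    have : w * ((2 + t) ^ 2 * a ^ 2 - 2 * t * (1 + t) * a + t * (2 + t)) ≤ 0 :=
      mul_nonpos_of_nonneg_of_nonpos hw hneg.le
    have : 0 < 4 * (1 + t) * a ^ 2 := by positivity
    linarith
  have h7 : w ≤ (1 + t) * (1 - f) - a * (t + f * (1 + t)) := by
    have : 0 ≤ (q - a) * (t + f * (1 + t)) := by
      apply mul_nonneg (by linarith)
      positivity
    linarith
  exact le_trans h6 (mul_le_mul_of_nonneg_right h7 hD)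

/-- invariant, `t ≤ 1/3` -/
theorem inv1 (t w q : ℝ) (ht : 0 < t) (ht1 : t ≤ 1 / 3) (hq1 : q ≤ w) (hw0 : 0 ≤ w) (hw : w ≤ 1)
    (h1 : 4 * (1 + t) * q ^ 2 ≤ w * ((2 + t) ^ 2 * q ^ 2 - 2 * t * (1 + t) * q + t * (2 + t)))
    (h2 : w ≤ (1 + t) * (1 - t / (1 + t)) - q * (t + t / (1 + t) * (1 + t))) : q ≤ 1 / 2 := by
  by_contra hc
  push Not at hc
  have h3 := cmp t w q (t / (1 + t)) (1 / 2) ht (by linarith) (by norm_num) hc (by linarith)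
    (by positivity) hw0 h1 h2
  have hne : (1 + t) ≠ 0 := by positivity
  have e1 : (1 + t) * (1 - t / (1 + t)) = 1 := by field_simp; ring
  have e2 : t / (1 + t) * (1 + t) = t := by field_simp
  rw [e1, e2] at h3
  nlinarith [mul_pos ht ht, pow_pos ht 3]

theorem inv2 (t w q f : ℝ) (ht : 1 / 3 ≤ t) (ht1 : t ≤ 1) (hq1 : q ≤ w) (hw0 : 0 ≤ w) (hw : w ≤ 1)
    (h1 : 4 * (1 + t) * q ^ 2 ≤ w * ((2 + t) ^ 2 * q ^ 2 - 2 * t * (1 + t) * q + t * (2 + t)))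
    (h2 : w ≤ (1 + t) * (1 - f) - q * (t + f * (1 + t)))
    (hf : (t ≤ 3 / 7 ∧ f = 9 / 49) ∨ (t ≤ 1 / 2 ∧ f = 1 / 5) ∨ (t ≤ 3 / 4 ∧ f = 9 / 40) ∨ f = 1 / 4) :
    q ≤ 11 / 20 := by
  by_contra hc
  push Not at hc
  have h3 := fun hf0 => cmp t w q f (11 / 20) (by linarith) ht1 (by norm_num) hc (by linarith) hf0 hw0 h1 h2
  rcases hf with ⟨h, rfl⟩ | ⟨h, rfl⟩ | ⟨h, rfl⟩ | rfl
  · have := h3 (by norm_num)
    nlinarith [mul_nonneg (sub_nonneg.2 ht) (sub_nonneg.2 h), mul_nonneg (sub_nonneg.2 ht) (mul_nonneg (sub_nonneg.2 ht) (sub_nonneg.2 h))]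
  · have := h3 (by norm_num)
    nlinarith [mul_nonneg (sub_nonneg.2 ht) (sub_nonneg.2 h), mul_nonneg (sub_nonneg.2 ht) (mul_nonneg (sub_nonneg.2 ht) (sub_nonneg.2 h))]
  · have := h3 (by norm_num)
    nlinarith [mul_nonneg (sub_nonneg.2 ht) (sub_nonneg.2 h), mul_nonneg (sub_nonneg.2 ht) (mul_nonneg (sub_nonneg.2 ht) (sub_nonneg.2 h))]
  · have := h3 (by norm_num)
    nlinarith [mul_nonneg (sub_nonneg.2 ht) (sub_nonneg.2 ht1), mul_nonneg (sub_nonneg.2 ht) (mul_nonneg (sub_nonneg.2 ht) (sub_nonneg.2 ht1))]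

/-- (QL) from (SP0) alone, `s = τ` -/
theorem ql (s w q lam : ℝ) (hs : 0 < s) (hs1 : s < 1) (hq1 : q ≤ w) (hw : w ≤ 1)
    (hlam : 0 < lam)
    (h1 : q ^ 2 * (1 - s ^ 2) ≤ w * (q ^ 2 - s * (1 + s) * q + s))
    (hk : s ≤ q → (lam + 1) * q ^ 2 - (lam + s + s ^ 2) * q + s ≤ 0) :
    q - s ≤ lam * (w - q) := by
  by_cases hqs : q ≤ s
  · have : 0 ≤ lam * (w - q) := mul_nonneg hlam.le (by linarith)
    linarith
  · push Not at hqs
    have h2 := hk hqs.le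
    have hq0 : 0 < q := by linarith
    have hqle : q ≤ 1 := by linarith
    -- `D = q² - s(1+s)q + s > 0`
    have hD : 0 < q ^ 2 - s * (1 + s) * q + s := by nlinarith [mul_nonneg hs.le (sub_nonneg.2 hqle), sq_nonneg (q - s)]
    have e : (w - q) * (q ^ 2 - s * (1 + s) * q + s) ≥ q * (1 - q) * (q - s) := by
      nlinarith
    have h3 : (q - s) * (q ^ 2 - s * (1 + s) * q + s) ≤ lam * (w - q) * (q ^ 2 - s * (1 + s) * q + s) := by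
      have h4 : q ^ 2 - s * (1 + s) * q + s ≤ lam * (q * (1 - q)) := by nlinarith
      have h5 := mul_le_mul_of_nonneg_left h4 (sub_nonneg.2 hqs.le)
      have h6 := mul_le_mul_of_nonneg_left e hlam.le
      nlinarith
    exact le_of_mul_le_mul_right h3 hD

/-- (QL), `t ≤ 1/3`: `lam = 3/2` -/
theorem ql1 (s w q : ℝ) (hs : 0 < s) (hs1 : s ≤ 1 / 3) (hq1 : q ≤ w) (hw : w ≤ 1) (hq : q ≤ 1 / 2)
    (h1 : q ^ 2 * (1 - s ^ 2) ≤ w * (q ^ 2 - s * (1 + s) * q + s)) :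
    q - s ≤ 3 / 2 * (w - q) := by
  apply ql s w q (3 / 2) hs (by linarith) hq1 hw (by norm_num) h1
  intro h
  nlinarith [mul_nonneg (sub_nonneg.2 h) (sub_nonneg.2 hq), mul_nonneg (sub_nonneg.2 h) hs.le,
    mul_nonneg (sub_nonneg.2 hq) hs.le, mul_nonneg (mul_nonneg (sub_nonneg.2 h) hs.le) hs.le,
    mul_nonneg (mul_nonneg (sub_nonneg.2 hq) hs.le) hs.le, sq_nonneg (s - 1 / 2)]

/-- (QL), `t ≥ 1/3`: `lam = 8/5` -/
theorem ql2 (s w q : ℝ) (hs : 0 < s) (hs1 : s ≤ 1 / 3) (hq1 : q ≤ w) (hw : w ≤ 1) (hq : q ≤ 11 / 20)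
    (h1 : q ^ 2 * (1 - s ^ 2) ≤ w * (q ^ 2 - s * (1 + s) * q + s)) :
    q - s ≤ 8 / 5 * (w - q) := by
  apply ql s w q (8 / 5) hs (by linarith) hq1 hw (by norm_num) h1
  intro h
  nlinarith [mul_nonneg (sub_nonneg.2 h) (sub_nonneg.2 hq), mul_nonneg (sub_nonneg.2 h) hs.le,
    mul_nonneg (sub_nonneg.2 hq) hs.le, mul_nonneg (mul_nonneg (sub_nonneg.2 h) hs.le) hs.le,
    mul_nonneg (mul_nonneg (sub_nonneg.2 hq) hs.le) hs.le, mul_nonneg hs.le (sub_nonneg.2 hs1)]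

/-- (HL), `t ≤ 1/3`, `s = t/(2+t)` -/
theorem hl1 (t w q : ℝ) (ht : 0 < t) (hq0 : 0 ≤ q) (hq : q ≤ 1 / 2) (hw : w ≤ 1 - 2 * t * q) :
    3 / 2 * q ≤ (3 / 2 - t / (2 + t) / 4) * (2 - w - q) := by
  have hs : t / (2 + t) ≤ t / 2 := by
    apply div_le_div_of_nonneg_left ht.le (by norm_num) (by linarith)
  have hs0 : 0 ≤ t / (2 + t) := by positivity
  have hs1 : t / (2 + t) ≤ 1 := by
    rw [div_le_one (by linarith)]; linarith
  set s := t / (2 + t) with hsd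
  have h1 : (3 / 2 - s / 4) * (2 - w - q) ≥ (3 / 2 - s / 4) * (1 - q + 2 * t * q) := by
    apply mul_le_mul_of_nonneg_left _ (by linarith)
    linarith
  nlinarith [mul_nonneg hs0 hq0, mul_nonneg ht.le hq0, mul_nonneg (mul_nonneg hs0 ht.le) hq0,
    mul_nonneg (sub_nonneg.2 hs) hq0, mul_nonneg (sub_nonneg.2 hq) hs0, mul_nonneg (sub_nonneg.2 hs1) (mul_nonneg ht.le hq0)]

/-- (HL), `t ≥ 1/3`, `s = t/(2+t)` -/
theorem hl2 (t w q f : ℝ) (ht : 1 / 3 ≤ t) (ht1 : t ≤ 1) (hq0 : 0 ≤ q) (hq : q ≤ 11 / 20)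
    (h2 : w ≤ (1 + t) * (1 - f) - q * (t + f * (1 + t)))
    (hf : (t ≤ 3 / 7 ∧ f = 9 / 49) ∨ (t ≤ 1 / 2 ∧ f = 1 / 5) ∨ (t ≤ 3 / 4 ∧ f = 9 / 40) ∨ f = 1 / 4) :
    8 / 5 * q ≤ (3 / 2 - t / (2 + t) / 4) * (2 - w - q) := by
  have h2t : (0 : ℝ) < 2 + t := by linarith
  have hs1 : t / (2 + t) ≤ 1 / 3 := by
    rw [div_le_iff₀ h2t]; linarith
  have h0 : 0 ≤ 2 - w - q := by
    rcases hf with ⟨h, rfl⟩ | ⟨h, rfl⟩ | ⟨h, rfl⟩ | rfl <;> nlinarith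
  have hs : (3 / 2 - 1 / 12) * (2 - w - q) ≤ (3 / 2 - t / (2 + t) / 4) * (2 - w - q) :=
    mul_le_mul_of_nonneg_right (by linarith) h0
  refine le_trans ?_ hs
  rcases hf with ⟨h, rfl⟩ | ⟨h, rfl⟩ | ⟨h, rfl⟩ | rfl <;> nlinarith

end Pool.Agent.Work.MP_9999b5_fs
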